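import Pool.Agent.Helper93.Seq.Raw

/-!
# Sequential labelings of disjoint unions of complete bipartite graphs
-/

namespace Pool.Agent.Results.MP_c865f9_co.Classification

open Pool.Agent.Helper93.Seq

/-- The disjoint union `m K_{s,t}` of `m` copies of the complete bipartite graph `K_{s,t}`: a
vertex is a pair (copy, vertex of `K_{s,t}`), and two vertices are adjacent when they lie in the
same copy and are adjacent in `K_{s,t}`. -/
def mK (m s t : ℕ) : SimpleGraph (Fin m × (Fin s ⊕ Fin t)) where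
  Adj p q := p.1 = q.1 ∧ (completeBipartiteGraph (Fin s) (Fin t)).Adj p.2 q.2
  symm := ⟨fun _ _ h => ⟨h.1.symm, h.2.symm⟩⟩
  loopless := ⟨fun _ h => SimpleGraph.irrefl _ h.2⟩

/-- `G` is sequential: with `q` the number of its edges, there is an injective labeling `f` of the
vertices by `0, …, q - 1` (by `0, …, q` is allowed when `G` is a tree) such that the edge labels
`f u + f v` are exactly the `q` integers `c, c + 1, …, c + q - 1` for some positive `c`. -/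
def IsSequential {V : Type} (G : SimpleGraph V) : Prop :=
  ∃ f : V → ℕ, Function.Injective f ∧
    ((∀ v, f v < G.edgeSet.ncard) ∨ (G.IsTree ∧ ∀ v, f v ≤ G.edgeSet.ncard)) ∧
    ∃ c : ℕ, 0 < c ∧
      {n : ℕ | ∃ u v, G.Adj u v ∧ f u + f v = n} = Set.Ico c (c + G.edgeSet.ncard)

theorem adj_iff {m s t : ℕ} {p q : Fin m × (Fin s ⊕ Fin t)} : (mK m s t).Adj p q ↔
    p.1 = q.1 ∧ ((∃ x y, p.2 = Sum.inl x ∧ q.2 = Sum.inr y) ∨
      (∃ x y, p.2 = Sum.inr y ∧ q.2 = Sum.inl x)) := by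
  obtain ⟨i, x | x⟩ := p <;> obtain ⟨j, y | y⟩ := q <;> simp [mK]

/-- The edge of copy `i` between `x` and `y`. -/
def edge {m s t : ℕ} (p : Fin m × Fin s × Fin t) : Sym2 (Fin m × (Fin s ⊕ Fin t)) :=
  s((p.1, Sum.inl p.2.1), (p.1, Sum.inr p.2.2))

theorem edge_injective {m s t : ℕ} :
    Function.Injective (edge : Fin m × Fin s × Fin t → _) := by
  rintro ⟨i, x, y⟩ ⟨j, x', y'⟩ h
  simp only [edge, Sym2.eq_iff, Prod.mk.injEq, Sum.inl.injEq, Sum.inr.injEq, reduceCtorEq,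
    and_false, or_false] at h
  obtain ⟨⟨h1, h2⟩, -, h3⟩ := h
  rw [h1, h2, h3]

theorem edgeSet_eq {m s t : ℕ} : (mK m s t).edgeSet = Set.range edge := by
  ext e
  induction e using Sym2.ind with
  | _ p q =>
    rw [SimpleGraph.mem_edgeSet, adj_iff, Set.mem_range]
    obtain ⟨i, p⟩ := p
    obtain ⟨j, q⟩ := q
    constructor
    · rintro ⟨h, ⟨x, y, h1, h2⟩ | ⟨x, y, h1, h2⟩⟩
      · dsimp only at h h1 h2
        subst h h1 h2
        exact ⟨(i, x, y), rfl⟩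
      · dsimp only at h h1 h2
        subst h h1 h2
        exact ⟨(i, x, y), Sym2.eq_swap⟩
    · rintro ⟨⟨k, x, y⟩, h⟩
      rw [edge, Sym2.eq_iff] at h
      rcases h with ⟨h1, h2⟩ | ⟨h1, h2⟩
      · obtain ⟨rfl, rfl⟩ := Prod.mk.inj h1
        obtain ⟨rfl, rfl⟩ := Prod.mk.inj h2
        exact ⟨rfl, Or.inl ⟨x, y, rfl, rfl⟩⟩
      · obtain ⟨rfl, rfl⟩ := Prod.mk.inj h1
        obtain ⟨rfl, rfl⟩ := Prod.mk.inj h2
        exact ⟨rfl, Or.inr ⟨x, y, rfl, rfl⟩⟩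

theorem ncard_edgeSet (m s t : ℕ) : (mK m s t).edgeSet.ncard = m * s * t := by
  rw [edgeSet_eq, ← Set.image_univ, Set.ncard_image_of_injective _ edge_injective,
    Set.ncard_univ]
  simp [mul_assoc]

/-- From a labeling to raw data. -/
theorem raw_of_label {m s t L c : ℕ} {f : Fin m × (Fin s ⊕ Fin t) → ℕ}
    (hf : Function.Injective f) (hL : ∀ v, f v < L) (hc : 0 < c)
    (he : {n : ℕ | ∃ u v, (mK m s t).Adj u v ∧ f u + f v = n} = Set.Ico c (c + m * s * t)) :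
    Raw L m s t := by
  have g1 : ∀ (i : ℕ) (hi : i < m) (x : ℕ) (hx : x < s),
      (fun i x => if h : i < m ∧ x < s then f (⟨i, h.1⟩, Sum.inl ⟨x, h.2⟩) else 0) i x =
        f (⟨i, hi⟩, Sum.inl ⟨x, hx⟩) := fun i hi x hx => dif_pos ⟨hi, hx⟩
  have g2 : ∀ (i : ℕ) (hi : i < m) (x : ℕ) (hx : x < t),
      (fun i x => if h : i < m ∧ x < t then f (⟨i, h.1⟩, Sum.inr ⟨x, h.2⟩) else 0) i x =
        f (⟨i, hi⟩, Sum.inr ⟨x, hx⟩) := fun i hi x hx => dif_pos ⟨hi, hx⟩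
  refine ⟨fun i x => if h : i < m ∧ x < s then f (⟨i, h.1⟩, Sum.inl ⟨x, h.2⟩) else 0,
    fun i x => if h : i < m ∧ x < t then f (⟨i, h.1⟩, Sum.inr ⟨x, h.2⟩) else 0, c, hc,
    ?_, ?_, ?_, ?_, ?_, ?_, ?_⟩
  · intro i hi x hx
    rw [g1 i hi x hx]
    exact hL _
  · intro i hi x hx
    rw [g2 i hi x hx]
    exact hL _
  · intro i hi x hx j hj y hy
    rw [g1 i hi x hx, g1 j hj y hy]
    intro h
    have := hf h
    simpa using this
  · intro i hi x hx j hj y hy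
    rw [g2 i hi x hx, g2 j hj y hy]
    intro h
    have := hf h
    simpa using this
  · intro i hi x hx j hj y hy
    rw [g1 i hi x hx, g2 j hj y hy]
    intro h
    have := hf h
    simp at this
  · intro i hi x hx y hy
    rw [g1 i hi x hx, g2 i hi y hy]
    have : f (⟨i, hi⟩, Sum.inl ⟨x, hx⟩) + f (⟨i, hi⟩, Sum.inr ⟨y, hy⟩) ∈
        {n : ℕ | ∃ u v, (mK m s t).Adj u v ∧ f u + f v = n} :=
      ⟨(⟨i, hi⟩, Sum.inl ⟨x, hx⟩), (⟨i, hi⟩, Sum.inr ⟨y, hy⟩),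
        adj_iff.mpr ⟨rfl, Or.inl ⟨_, _, rfl, rfl⟩⟩, rfl⟩
    rw [he] at this
    exact this
  · intro n h1 h2
    have : n ∈ {n : ℕ | ∃ u v, (mK m s t).Adj u v ∧ f u + f v = n} := by
      rw [he]; exact ⟨h1, h2⟩
    obtain ⟨⟨i, u⟩, ⟨j, v⟩, hadj, hn⟩ := this
    obtain ⟨hij, ⟨x, y, hx, hy⟩ | ⟨x, y, hx, hy⟩⟩ := adj_iff.mp hadj
    · dsimp only at hij hx hy
      subst hij hx hy
      refine ⟨i, i.2, x, x.2, y, y.2, ?_⟩
      rw [g1 i i.2 x x.2, g2 i i.2 y y.2]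
      exact hn
    · dsimp only at hij hx hy
      subst hij hx hy
      refine ⟨i, i.2, x, x.2, y, y.2, ?_⟩
      rw [g1 i i.2 x x.2, g2 i i.2 y y.2]
      rw [add_comm] at hn
      exact hn

/-- From raw data to a labeling. -/
theorem label_of_raw {m s t L : ℕ} (h : Raw L m s t) :
    ∃ f : Fin m × (Fin s ⊕ Fin t) → ℕ, Function.Injective f ∧ (∀ v, f v < L) ∧
      ∃ c : ℕ, 0 < c ∧
        {n : ℕ | ∃ u v, (mK m s t).Adj u v ∧ f u + f v = n} = Set.Ico c (c + m * s * t) := by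
  obtain ⟨A, B, c, hc, lA, lB, iA, iB, hAB, hr, hsur⟩ := h
  refine ⟨fun p => Sum.elim (fun x : Fin s => A p.1 x) (fun y : Fin t => B p.1 y) p.2, ?_, ?_,
    c, hc, ?_⟩
  · rintro ⟨i, x | x⟩ ⟨j, y | y⟩ h
    · simp only [Sum.elim_inl] at h
      have := iA i i.2 x x.2 j j.2 y y.2 h
      obtain ⟨h1, h2⟩ := this
      rw [Fin.ext h1, Fin.ext h2]
    · exact absurd h (hAB i i.2 x x.2 j j.2 y y.2)
    · exact absurd h.symm (hAB j j.2 y y.2 i i.2 x x.2)
    · simp only [Sum.elim_inr] at h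
      have := iB i i.2 x x.2 j j.2 y y.2 h
      obtain ⟨h1, h2⟩ := this
      rw [Fin.ext h1, Fin.ext h2]
  · rintro ⟨i, x | x⟩
    · exact lA i i.2 x x.2
    · exact lB i i.2 x x.2
  · ext n
    constructor
    · rintro ⟨⟨i, u⟩, ⟨j, v⟩, hadj, hn⟩
      obtain ⟨hij, ⟨x, y, hx, hy⟩ | ⟨x, y, hx, hy⟩⟩ := adj_iff.mp hadj
      · dsimp only at hij hx hy
        subst hij hx hy
        simp only [Sum.elim_inl, Sum.elim_inr] at hn
        rw [← hn]
        exact hr i i.2 x x.2 y y.2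
      · dsimp only at hij hx hy
        subst hij hx hy
        simp only [Sum.elim_inl, Sum.elim_inr] at hn
        rw [← hn, add_comm (B _ _)]
        exact hr i i.2 x x.2 y y.2
    · rintro ⟨h1, h2⟩
      obtain ⟨i, hi, x, hx, y, hy, e⟩ := hsur n h1 h2
      exact ⟨(⟨i, hi⟩, Sum.inl ⟨x, hx⟩), (⟨i, hi⟩, Sum.inr ⟨y, hy⟩),
        adj_iff.mpr ⟨rfl, Or.inl ⟨_, _, rfl, rfl⟩⟩, e⟩

theorem raw_of_notTree {m s t : ℕ} (h : IsSequential (mK m s t)) (hT : ¬ (mK m s t).IsTree) :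
    Raw (m * s * t) m s t := by
  obtain ⟨f, hf, hL, c, hc, he⟩ := h
  rw [ncard_edgeSet] at hL he
  refine raw_of_label hf ?_ hc ?_
  · rcases hL with h | h
    · exact h
    · exact absurd h.1 hT
  · exact he

theorem seq_of_raw {m s t : ℕ} (h : Raw (m * s * t) m s t) : IsSequential (mK m s t) := by
  obtain ⟨f, hf, hL, c, hc, he⟩ := label_of_raw h
  refine ⟨f, hf, Or.inl ?_, c, hc, ?_⟩
  · rw [ncard_edgeSet]; exact hL
  · rw [ncard_edgeSet]; exact he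

theorem card_of_isTree {m s t : ℕ} (h : (mK m s t).IsTree) :
    m * s * t + 1 = m * (s + t) := by
  have := (SimpleGraph.isTree_iff_connected_and_card.mp h).2
  rw [Nat.card_coe_set_eq, ncard_edgeSet] at this
  rw [this]
  simp

theorem isTree_star (t : ℕ) : (mK 1 1 t).IsTree := by
  rw [SimpleGraph.isTree_iff_connected_and_card]
  constructor
  · have h0 : ∀ v, (mK 1 1 t).Reachable (0, Sum.inl 0) v := by
      rintro ⟨i, x | y⟩
      · have h1 : i = 0 := Subsingleton.elim _ _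
        have h2 : x = 0 := Subsingleton.elim _ _
        rw [h1, h2]
      · refine SimpleGraph.Adj.reachable (adj_iff.mpr ⟨Subsingleton.elim _ _, Or.inl ⟨0, y, rfl, rfl⟩⟩)
    have : Nonempty (Fin 1 × (Fin 1 ⊕ Fin t)) := ⟨(0, Sum.inl 0)⟩
    exact ⟨fun u v => (h0 u).symm.trans (h0 v)⟩
  · rw [Nat.card_coe_set_eq, ncard_edgeSet]
    simp
    ring

theorem isTree_star' (s : ℕ) : (mK 1 s 1).IsTree := by
  rw [SimpleGraph.isTree_iff_connected_and_card]
  constructor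
  · have h0 : ∀ v, (mK 1 s 1).Reachable (0, Sum.inr 0) v := by
      rintro ⟨i, x | y⟩
      · refine SimpleGraph.Adj.reachable (adj_iff.mpr ⟨Subsingleton.elim _ _, Or.inr ⟨x, 0, rfl, rfl⟩⟩)
      · have h1 : i = 0 := Subsingleton.elim _ _
        have h2 : y = 0 := Subsingleton.elim _ _
        rw [h1, h2]
    have : Nonempty (Fin 1 × (Fin s ⊕ Fin 1)) := ⟨(0, Sum.inr 0)⟩
    exact ⟨fun u v => (h0 u).symm.trans (h0 v)⟩
  · rw [Nat.card_coe_set_eq, ncard_edgeSet]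
    simp

theorem raw_star (t : ℕ) (ht : 0 < t) : Raw (1 * 1 * t + 1) 1 1 t := by
  refine ⟨fun _ _ => t, fun _ y => y, t, ht, ?_, ?_, ?_, ?_, ?_, ?_, ?_⟩
  · intros; dsimp only; omega
  · intros; dsimp only; omega
  · intros; omega
  · intro i hi x hx j hj y hy h; dsimp only at h; omega
  · intro i hi x hx j hj y hy; dsimp only; omega
  · intro i hi x hx y hy; dsimp only; omega
  · intro n h1 h2
    exact ⟨0, by omega, 0, by omega, n - t, by omega, by dsimp only; omega⟩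

theorem seq_star (t : ℕ) (ht : 0 < t) : IsSequential (mK 1 1 t) := by
  obtain ⟨f, hf, hL, c, hc, he⟩ := label_of_raw (raw_star t ht)
  refine ⟨f, hf, Or.inr ⟨isTree_star t, fun v => ?_⟩, c, hc, ?_⟩
  · rw [ncard_edgeSet]
    exact Nat.lt_succ_iff.mp (hL v)
  · rw [ncard_edgeSet]; exact he

theorem seq_star' (s : ℕ) (hs : 0 < s) : IsSequential (mK 1 s 1) := by
  obtain ⟨f, hf, hL, c, hc, he⟩ := label_of_raw (raw_star s hs).symm
  refine ⟨f, hf, Or.inr ⟨isTree_star' s, fun v => ?_⟩, c, hc, ?_⟩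
  · rw [ncard_edgeSet]
    have := hL v
    omega
  · rw [ncard_edgeSet]; exact he

/-- Classification of the sequential graphs `m K_{s,t}`, the graphs `2 K_{p,p}` with `p ≥ 5` prime
excepted. -/
theorem result (m s t : ℕ) (hm : 0 < m) (hs : 0 < s) (ht : 0 < t)
    (hp : ¬ (m = 2 ∧ s = t ∧ s.Prime ∧ 5 ≤ s)) :
    IsSequential (mK m s t) ↔
      (m = 1 ∧ (s = 1 ∨ t = 1)) ∨
      (m = 2 ∧ 2 ≤ s ∧ 2 ≤ t ∧ ¬ (s = 2 ∧ t = 3) ∧ ¬ (s = 3 ∧ t = 2) ∧ ¬ (s = t ∧ s.Prime)) ∨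
      (3 ≤ m ∧ 2 ≤ s ∧ 2 ≤ t ∧ ¬ (s = 2 ∧ t = 2)) := by
  by_cases h1 : m = 1 ∧ (s = 1 ∨ t = 1)
  · refine ⟨fun _ => Or.inl h1, fun _ => ?_⟩
    obtain ⟨rfl, rfl | rfl⟩ := h1
    · exact seq_star t ht
    · exact seq_star' s hs
  · have hT : ¬ (mK m s t).IsTree := by
      intro hT
      have h2 := card_of_isTree hT
      have h3 : m ∣ 1 := by
        have h4 : m * (s * t) + 1 = m * (s + t) := by rw [← mul_assoc]; exact h2
        exact (Nat.dvd_add_right ⟨s * t, rfl⟩).mp ⟨s + t, h4⟩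
      have h5 : m = 1 := Nat.dvd_one.mp h3
      subst h5
      apply h1
      refine ⟨rfl, ?_⟩
      by_contra hne
      push Not at hne
      have h6 : 2 ≤ s := by omega
      have h7 : 2 ≤ t := by omega
      nlinarith
    have key : IsSequential (mK m s t) ↔ Cond m s t :=
      ⟨fun h => (raw_iff hm hs ht hp).mp (raw_of_notTree h hT),
        fun h => seq_of_raw ((raw_iff hm hs ht hp).mpr h)⟩
    rw [key]
    constructor
    · rintro ⟨h2, h3, h4, h5, h6⟩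
      rcases Nat.lt_or_ge m 3 with h | h
      · have h7 : m = 2 := by omega
        exact Or.inr (Or.inl ⟨h7, h3, h4, h6 h7⟩)
      · exact Or.inr (Or.inr ⟨h, h3, h4, h5⟩)
    · rintro (h | ⟨h2, h3, h4, h5, h6, h7⟩ | ⟨h2, h3, h4, h5⟩)
      · exact absurd h h1
      · refine ⟨by omega, h3, h4, ?_, fun _ => ⟨h5, h6, h7⟩⟩
        rintro ⟨rfl, rfl⟩
        exact h7 ⟨rfl, Nat.prime_two⟩
      · exact ⟨by omega, h3, h4, h5, fun h => by omega⟩

end Pool.Agent.Results.MP_c865f9_co.Classification
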